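import Pool.Agent.R26.HoleGrid

/-!
# Near-perfect matchings of odd grids with an even white hole: divisibility by 4

`grid r c` is the `r × c` grid graph on `Fin r × Fin c`; the cell `(i, j)` of the problem (rows and
columns counted from 1) is the vertex `(i - 1, j - 1)`, so an even white vertex (both `i` and `j` even)
is a vertex `h` both of whose coordinates (counted from 0) are odd.
`holeCount r c h` is the number of near-perfect matchings of the grid whose uncovered vertex is `h`.
-/

set_option autoImplicit false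

namespace Pool.Agent.Results.MP_bab3d5_co.Holes

open Pool.Agent.R26.Hole

/-- The `r × c` grid graph: cells are adjacent when they agree in one coordinate and differ by one in
the other. -/
def grid (r c : ℕ) : SimpleGraph (Fin r × Fin c) where
  Adj x y := (x.1 = y.1 ∧ (x.2.val + 1 = y.2.val ∨ y.2.val + 1 = x.2.val)) ∨
    (x.2 = y.2 ∧ (x.1.val + 1 = y.1.val ∨ y.1.val + 1 = x.1.val))
  symm := ⟨fun x y h => by
    rcases h with ⟨h1, h2⟩ | ⟨h1, h2⟩
    · exact Or.inl ⟨h1.symm, h2.symm⟩
    · exact Or.inr ⟨h1.symm, h2.symm⟩⟩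
  loopless := ⟨fun x h => by
    rcases h with ⟨_, h2⟩ | ⟨_, h2⟩ <;> omega⟩

/-- The number of matchings of the grid that cover all vertices except `h`. -/
noncomputable def holeCount (r c : ℕ) (h : Fin r × Fin c) : ℕ :=
  Nat.card {M : (grid r c).Subgraph // M.IsMatching ∧ M.verts = {h}ᶜ}

/-- For all odd `r`, `c` that are not both congruent to 3 modulo 4 and for every even white vertex `h`
of the `r × c` grid, the number of near-perfect matchings of the grid with uncovered vertex `h` is
divisible by 4. -/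
theorem result (r c : ℕ) (hr : Odd r) (hc : Odd c) (hrc : ¬ (r % 4 = 3 ∧ c % 4 = 3))
    (h : Fin r × Fin c) (h1 : Odd h.1.val) (h2 : Odd h.2.val) : 4 ∣ holeCount r c h := by
  obtain ⟨m, rfl⟩ := hr
  obtain ⟨n, rfl⟩ := hc
  obtain ⟨⟨x, hx⟩, ⟨y, hy⟩⟩ := h
  obtain ⟨i, hi⟩ := h1
  obtain ⟨j, hj⟩ := h2
  change x = 2 * i + 1 at hi
  change y = 2 * j + 1 at hj
  subst hi hj
  have hev : Even (m * n) := by
    rw [Nat.even_mul]
    by_contra hcon
    rw [not_or, Nat.not_even_iff_odd, Nat.not_even_iff_odd] at hcon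
    obtain ⟨⟨a, ha⟩, ⟨b, hb⟩⟩ := hcon
    apply hrc
    omega
  exact main ((⟨i, by omega⟩, ⟨j, by omega⟩) : Fc m n) hev

end Pool.Agent.Results.MP_bab3d5_co.Holes
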